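import Pool.Agent.Helper35.PI.St2

/-! # Project PI (MP_b2fa09), module G7: jets of `|A|²` -/

set_option autoImplicit false

namespace Helper78.PI

open Helper35.PI
open scoped ContDiff Manifold Topology ENNReal BigOperators
open MeasureTheory Set Filter

variable {n N : ℕ}

/-- jets of a fourfold sum -/
lemma jet_sum4 (hJA : StJA) (z : EE n × ℝ) (Φ : Fin n → Fin n → Fin n → Fin n → EE n × ℝ → ℝ)
    (h : ∀ i j k l, ContDiffAt ℝ 2 (Φ i j k l) z) :
    (∀ m, jg (fun z => ∑ i, ∑ j, ∑ k, ∑ l, Φ i j k l z) z m = ∑ i, ∑ j, ∑ k, ∑ l, jg (Φ i j k l) z m) ∧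
    jh (fun z => ∑ i, ∑ j, ∑ k, ∑ l, Φ i j k l z) z = ∑ i, ∑ j, ∑ k, ∑ l, jh (Φ i j k l) z := by
  have S := (hJA n ℝ z).2.2.2.2
  have c1 : ∀ i j k, ContDiffAt ℝ 2 (fun z => ∑ l, Φ i j k l z) z := fun i j k =>
    ContDiffAt.sum fun l _ => h i j k l
  have c2 : ∀ i j, ContDiffAt ℝ 2 (fun z => ∑ k, ∑ l, Φ i j k l z) z := fun i j =>
    ContDiffAt.sum fun k _ => c1 i j k
  have c3 : ∀ i, ContDiffAt ℝ 2 (fun z => ∑ j, ∑ k, ∑ l, Φ i j k l z) z := fun i =>
    ContDiffAt.sum fun j _ => c2 i j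
  have s1 := S n (fun i z => ∑ j, ∑ k, ∑ l, Φ i j k l z) c3
  have s2 := fun i => S n (fun j z => ∑ k, ∑ l, Φ i j k l z) (c2 i)
  have s3 := fun i j => S n (fun k z => ∑ l, Φ i j k l z) (c1 i j)
  have s4 := fun i j k => S n (fun l z => Φ i j k l z) (h i j k)
  constructor
  · intro m
    rw [s1.1 m]
    refine Finset.sum_congr rfl fun i _ => ?_
    rw [(s2 i).1 m]
    refine Finset.sum_congr rfl fun j _ => ?_
    rw [(s3 i j).1 m]
    refine Finset.sum_congr rfl fun k _ => ?_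
    rw [(s4 i j k).1 m]
  · rw [s1.2]
    refine Finset.sum_congr rfl fun i _ => ?_
    rw [(s2 i).2]
    refine Finset.sum_congr rfl fun j _ => ?_
    rw [(s3 i j).2]
    refine Finset.sum_congr rfl fun k _ => ?_
    rw [(s4 i j k).2]

/-- jets of a product of three functions, the first two with vanishing gradient -/
lemma jet_prod3 (hJB : StJB) (z : EE n × ℝ) (a b c : EE n × ℝ → ℝ)
    (ha : ContDiffAt ℝ 2 a z) (hb : ContDiffAt ℝ 2 b z) (hc : ContDiffAt ℝ 2 c z)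
    (ga : ∀ k, jg a z k = 0) (gb : ∀ k, jg b z k = 0) :
    (∀ k, jg (fun z => a z * b z * c z) z k = a z * b z * jg c z k) ∧
    jh (fun z => a z * b z * c z) z = (jh a z * b z + a z * jh b z) * c z + a z * b z * jh c z := by
  have P := (hJB n 0 z).1
  have p1 := P a b ha hb
  have p2 := P (fun z => a z * b z) c (ha.mul hb) hc
  have g1 : ∀ k, jg (fun z => a z * b z) z k = 0 := fun k => by rw [p1.1 k, ga, gb]; ring
  constructor
  · intro k
    rw [p2.1 k, g1]; ring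
  · rw [p2.2, p1.2]
    simp only [g1, ga]
    simp

lemma sum4_delta (a : Fin n → Fin n → Fin n → Fin n → ℝ) :
    ∑ i, ∑ j, ∑ k, ∑ l, (if i = k then (1 : ℝ) else 0) * (if j = l then (1 : ℝ) else 0) * a i j k l =
      ∑ i, ∑ j, a i j i j := by
  refine Finset.sum_congr rfl fun i _ => Finset.sum_congr rfl fun j _ => ?_
  have : ∀ k, ∑ l, (if i = k then (1 : ℝ) else 0) * (if j = l then (1 : ℝ) else 0) * a i j k l =
      if i = k then a i j k j else 0 := by
    intro k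
    rw [Finset.sum_eq_single j]
    · simp
    · intro l _ hl; simp [Ne.symm hl]
    · intro h; exact absurd (Finset.mem_univ j) h
  simp only [this]
  simp

lemma sum4_right (g : Fin n → Fin n → ℝ) (a : Fin n → Fin n → Fin n → Fin n → ℝ) :
    ∑ i, ∑ j, ∑ k, ∑ l, (g i k * (if j = l then (1 : ℝ) else 0)) * a i j k l =
      ∑ i, ∑ j, ∑ k, g i k * a i j k j := by
  refine Finset.sum_congr rfl fun i _ => Finset.sum_congr rfl fun j _ => Finset.sum_congr rfl fun k _ => ?_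
  rw [Finset.sum_eq_single j]
  · simp
  · intro l _ hl; simp [Ne.symm hl]
  · intro h; exact absurd (Finset.mem_univ j) h

lemma sum4_left (g : Fin n → Fin n → ℝ) (a : Fin n → Fin n → Fin n → Fin n → ℝ) :
    ∑ i, ∑ j, ∑ k, ∑ l, ((if i = k then (1 : ℝ) else 0) * g j l) * a i j k l =
      ∑ i, ∑ j, ∑ l, g j l * a i j i l := by
  refine Finset.sum_congr rfl fun i _ => Finset.sum_congr rfl fun j _ => ?_
  rw [Finset.sum_eq_single i]
  · simp
  · intro k _ hk; simp [Ne.symm hk]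
  · intro h; exact absurd (Finset.mem_univ i) h

lemma hX_eq (A : Fin n → Fin n → EE N) (T : Fin n → Fin n → Fin n → EE N) :
      hX A T = -2 * (∑ i, ∑ j, ∑ k, ‖T i j k‖ ^ 2) +
        2 * (∑ i, ∑ j, ∑ k, ∑ l, inner ℝ (A i j) (A k l) ^ 2) +
        4 * (∑ i, ∑ j, ∑ k, ∑ l, inner ℝ (A i j) (A j k) * inner ℝ (A k l) (A l i)) -
        4 * (∑ i, ∑ j, ∑ k, ∑ l, inner ℝ (A i j) (A k l) * inner ℝ (A j k) (A l i)) := by
  simp only [hX, Sq, Finset.sum_add_distrib, ← Finset.mul_sum, Finset.sum_sub_distrib]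
  ring

theorem hG7 (hJA : StJA) (hJB : StJB) (hG1 : StG1) (hG5 : StG5) (hG6 : StG6) : StG7 := by
  intro n N x₀ L u t₀ hu A T hA hT
  obtain ⟨hsym, hsym3, -, -⟩ := hG1 n N x₀ L u t₀ hu
  rw [← hA] at hsym
  rw [← hT] at hsym3
  have g5 := hG5 n N x₀ L u t₀ hu
  have g6 := hG6 n N x₀ L u t₀ hu A T hA hT
  set z₀ : EE n × ℝ := (0, t₀) with hz₀
  have eX : Xf x₀ L u = fun z => ∑ i, ∑ j, ∑ k, ∑ l,
      GIf x₀ L u i k z * GIf x₀ L u j l z * Rf x₀ L u i j k l z := rfl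
  have le2 : (2 : WithTop ℕ∞) ≤ 4 := by norm_cast
  have le3 : (3 : WithTop ℕ∞) ≤ 4 := by norm_cast
  have cG : ∀ i j, ContDiffAt ℝ 2 (GIf x₀ L u i j) z₀ := fun i j => (g5 i j).1.of_le le2
  have cR : ∀ i j k l, ContDiffAt ℝ 2 (Rf x₀ L u i j k l) z₀ := fun i j k l => (g6 i j k l).1.of_le le2
  have cT : ∀ i j k l, ContDiffAt ℝ 2
      (fun z => GIf x₀ L u i k z * GIf x₀ L u j l z * Rf x₀ L u i j k l z) z₀ :=
    fun i j k l => ((cG i k).mul (cG j l)).mul (cR i j k l)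
  have S := jet_sum4 hJA z₀ (fun i j k l z => GIf x₀ L u i k z * GIf x₀ L u j l z * Rf x₀ L u i j k l z) cT
  have P := fun i j k l => jet_prod3 hJB z₀ (GIf x₀ L u i k) (GIf x₀ L u j l) (Rf x₀ L u i j k l)
    (cG i k) (cG j l) (cR i j k l) (g5 i k).2.2.1 (g5 j l).2.2.1
  have v1 : ∀ i j, GIf x₀ L u i j z₀ = (if i = j then (1 : ℝ) else 0) := fun i j => (g5 i j).2.1
  have v2 : ∀ i j k l, Rf x₀ L u i j k l z₀ = inner ℝ (A i j) (A k l) := fun i j k l => (g6 i j k l).2.1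
  have h5 : ∀ i j, jh (GIf x₀ L u i j) z₀ = 2 * ∑ k, inner ℝ (A i k) (A j k) := fun i j => by
    rw [(g5 i j).2.2.2, hA]
  refine ⟨?_, ?_, ?_, ?_⟩
  · rw [eX]
    refine ContDiffAt.sum fun i _ => ContDiffAt.sum fun j _ => ContDiffAt.sum fun k _ =>
      ContDiffAt.sum fun l _ => ?_
    exact (((g5 i k).1.of_le le3).mul ((g5 j l).1.of_le le3)).mul ((g6 i j k l).1.of_le le3)
  · rw [eX]
    simp only [v1, v2]
    rw [sum4_delta]
    simp only [XX, real_inner_self_eq_norm_sq]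
  · intro m
    rw [eX, S.1 m]
    simp only [(P _ _ _ _).1 m, v1]
    rw [sum4_delta]
    rw [gX, Finset.mul_sum]
    refine Finset.sum_congr rfl fun i _ => ?_
    rw [Finset.mul_sum]
    refine Finset.sum_congr rfl fun j _ => ?_
    rw [(g6 i j i j).2.2.1 m, real_inner_comm (A i j) (T i j m)]
    ring
  · rw [eX, S.2]
    simp only [(P _ _ _ _).2]
    simp only [add_mul, Finset.sum_add_distrib, v1, v2]
    rw [sum4_right, sum4_left, sum4_delta]
    -- the two terms with the heat of the inverse metric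
    have e1 : ∑ i, ∑ j, ∑ k, jh (GIf x₀ L u i k) z₀ * inner ℝ (A i j) (A k j) =
        2 * ∑ i, ∑ j, ∑ k, ∑ l, inner ℝ (A i j) (A j k) * inner ℝ (A k l) (A l i) := by
      simp only [h5, Finset.mul_sum, Finset.sum_mul]
      refine Finset.sum_congr rfl fun i _ => Finset.sum_congr rfl fun j _ =>
        Finset.sum_congr rfl fun k _ => Finset.sum_congr rfl fun l _ => ?_
      rw [hsym j k, hsym l i, real_inner_comm (A k l) (A i l)]
      ring
    have e2 : ∑ i, ∑ j, ∑ l, jh (GIf x₀ L u j l) z₀ * inner ℝ (A i j) (A i l) =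
        2 * ∑ i, ∑ j, ∑ k, ∑ l, inner ℝ (A i j) (A j k) * inner ℝ (A k l) (A l i) := by
      rw [← e1, Finset.sum_comm]
      refine Finset.sum_congr rfl fun i _ => Finset.sum_congr rfl fun j _ => Finset.sum_congr rfl fun k _ => ?_
      rw [hsym j i, hsym j k]
    have e3 : ∑ i, ∑ j, jh (Rf x₀ L u i j i j) z₀ = -2 * (∑ i, ∑ j, ∑ k, ‖T i j k‖ ^ 2) +
        2 * (∑ i, ∑ j, ∑ k, ∑ l, inner ℝ (A i j) (A k l) ^ 2) -
        4 * (∑ i, ∑ j, ∑ k, ∑ l, inner ℝ (A i j) (A k l) * inner ℝ (A j k) (A l i)) := by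
      have e4 : ∑ i, ∑ j, ∑ a, ∑ b, inner ℝ (A a i) (A b j) * inner ℝ (A a b) (A i j) =
          ∑ i, ∑ j, ∑ k, ∑ l, inner ℝ (A i j) (A k l) * inner ℝ (A j k) (A l i) := by
        have c1 : ∀ i : Fin n, ∑ j, ∑ a, ∑ b, inner ℝ (A a i) (A b j) * inner ℝ (A a b) (A i j) =
            ∑ a, ∑ j, ∑ b, inner ℝ (A a i) (A b j) * inner ℝ (A a b) (A i j) := fun i => Finset.sum_comm
        simp only [c1]
        rw [Finset.sum_comm]
        refine Finset.sum_congr rfl fun a _ => Finset.sum_congr rfl fun i _ =>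
          Finset.sum_congr rfl fun j _ => Finset.sum_congr rfl fun b _ => ?_
        rw [hsym b j, hsym b a, real_inner_comm (A i j) (A a b)]
      have : ∀ i j, jh (Rf x₀ L u i j i j) z₀ = -2 * (∑ k, ‖T i j k‖ ^ 2) +
          2 * (∑ k, ∑ l, inner ℝ (A i j) (A k l) ^ 2) -
          4 * (∑ a, ∑ b, inner ℝ (A a i) (A b j) * inner ℝ (A a b) (A i j)) := by
        intro i j
        rw [(g6 i j i j).2.2.2]
        simp only [real_inner_self_eq_norm_sq, ← pow_two]
        ring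
      simp only [this, Finset.sum_add_distrib, Finset.sum_sub_distrib, ← Finset.mul_sum, e4]
    rw [e1, e2, e3, hX_eq A T]
    ring

end Helper78.PI
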